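import Mathlib

set_option autoImplicit false

namespace Pool.Agent.Results.MP_c4d24c_al.Chain

/-- Every ascending chain of the sets `I x` is eventually constant. -/
def ACC {H : Type} (I : H → Set H) : Prop :=
  ∀ x : ℕ → H, (∀ n, I (x n) ⊆ I (x (n + 1))) → ∃ N, ∀ n, N ≤ n → I (x n) = I (x N)

inductive X : Type
  | P (m : ℤ) (i t : ℕ) : X
  | Z (m : ℤ) (i l : ℕ) : X
  | Q (m : ℤ) (t l : ℕ) : X

open X

def L : Bool → X → X
  | true, P m 0 t => P (m - 1) 0 (t + 1)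
  | true, P m (i + 1) t => P m i t
  | true, Z m 0 l => P (m - 1) 0 l
  | true, Z m (i + 1) l => Z m i l
  | true, Q m 0 l => Z m 0 l
  | true, Q m (t + 1) l => Q m t l
  | false, P m i t => P m (i + 1) t
  | false, Z m i l => Z m (i + 1) l
  | false, Q m t l => Q m (t + 1) l

def R : Bool → X → X
  | true, Q m t 0 => Q (m - 1) (t + 1) 0
  | true, Q m t (l + 1) => Q m t l
  | true, Z m i 0 => Q (m - 1) i 0
  | true, Z m i (l + 1) => Z m i l
  | true, P m i 0 => Z m i 0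
  | true, P m i (t + 1) => P m i t
  | false, Q m t l => Q m t (l + 1)
  | false, Z m i l => Z m i (l + 1)
  | false, P m i t => P m i (t + 1)

theorem LR (a b : Bool) (x : X) : L a (R b x) = R b (L a x) := by
  cases a <;> cases b <;> rcases x with ⟨m, _ | i, _ | t⟩ | ⟨m, _ | i, _ | t⟩ | ⟨m, _ | i, _ | t⟩ <;>
    rfl

def Ls (w : List Bool) (x : X) : X := w.foldr L x
def Rs (w : List Bool) (x : X) : X := w.foldl (fun y b => R b y) x

theorem LRs (u w : List Bool) (x : X) : Ls u (Rs w x) = Rs w (Ls u x) := by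
  induction u with
  | nil => rfl
  | cons a u ih =>
    change L a (Ls u (Rs w x)) = Rs w (L a (Ls u x))
    rw [ih]
    generalize Ls u x = y
    clear ih
    induction w generalizing y with
    | nil => rfl
    | cons b w ih => exact (ih (R b y)).trans (congrArg (Rs w) (LR a b y))

inductive H : Type
  | w (u : List Bool) : H
  | x (y : X) : H
  | o : H

def mul : H → H → H
  | .w u, .w v => .w (u ++ v)
  | .w u, .x y => .x (Ls u y)
  | .x y, .w v => .x (Rs v y)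
  | _, _ => .o

instance : Monoid H where
  mul := mul
  one := .w []
  one_mul a := by cases a <;> rfl
  mul_one a := by
    cases a
    · exact congrArg H.w (List.append_nil _)
    all_goals rfl
  mul_assoc a b c := by
    change mul (mul a b) c = mul a (mul b c)
    cases a <;> cases b <;> cases c <;> simp [mul, Ls, Rs]
    exact (LRs _ _ _).symm

theorem acc {I : H → Set H} (le : H → H → Prop) (hI : ∀ a b, a ∈ I b ↔ le a b) (refl : ∀ a, le a a)
    (trans : ∀ a b c, le a b → le b c → le a c) (ρ : H → ℕ ×ₗ ℕ)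
    (h : ∀ a b, le a b → ρ b < ρ a ∨ ρ b = ρ a ∧ le b a) : ACC I := by
  intro x hx
  have l : ∀ n, le (x n) (x (n + 1)) := fun n => (hI _ _).1 (hx n ((hI _ _).2 (refl _)))
  obtain ⟨N, hN⟩ := WellFoundedLT.antitone_chain_condition (f := fun n => ρ (x n))
    (antitone_nat_of_succ_le fun n => (h _ _ (l n)).elim le_of_lt fun e => e.1.le)
  refine ⟨N, fun n hn => ?_⟩
  induction n, hn using Nat.le_induction with
  | base => rfl
  | succ n hn ih =>
    rw [← ih]
    refine Set.Subset.antisymm (fun a ha => (hI _ _).2 (trans _ _ _ ((hI _ _).1 ha) ?_)) (hx n)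
    exact ((h _ _ (l n)).resolve_left ((hN n hn).symm.trans (hN (n + 1) (by omega))).not_gt).2

def rR : X → ℕ
  | P _ _ _ => 0
  | Z _ _ _ => 1
  | Q _ t _ => t + 2

def rL : X → ℕ
  | Q _ _ _ => 0
  | Z _ _ _ => 1
  | P _ _ t => t + 2

def lev : X → ℤ
  | P m _ _ => m
  | Z m _ _ => m
  | Q m _ _ => m

theorem stepR (w : List Bool) (y : X) : lev (Rs w y) ≤ lev y ∧
    (rR y < rR (Rs w y) ∨ rR y = rR (Rs w y) ∧ ∃ v, y = Rs v (Rs w y)) := by
  induction w generalizing y with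
  | nil => exact ⟨le_rfl, Or.inr ⟨rfl, [], rfl⟩⟩
  | cons b w ih =>
    have h1 : lev (R b y) ≤ lev y ∧ (rR y < rR (R b y) ∨ rR y = rR (R b y) ∧ y = R (!b) (R b y)) := by
      cases b <;> rcases y with ⟨m, i, _ | t⟩ | ⟨m, i, _ | t⟩ | ⟨m, i, _ | t⟩ <;> simp [R, rR, lev]
    obtain ⟨h2, h3⟩ := ih (R b y)
    change lev (Rs w (R b y)) ≤ _ ∧ (_ < rR (Rs w (R b y)) ∨ _ = rR (Rs w (R b y)) ∧
      ∃ v, y = Rs v (Rs w (R b y)))
    refine ⟨h2.trans h1.1, ?_⟩
    rcases h1.2 with h | ⟨h, e⟩ <;> rcases h3 with h' | ⟨h', v, e'⟩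
    · omega
    · omega
    · omega
    · exact Or.inr ⟨h.trans h', v ++ [!b], by
        rw [Rs, List.foldl_append, ← Rs, ← Rs, ← e']; exact e⟩

theorem stepL (w : List Bool) (y : X) : lev (Ls w y) ≤ lev y ∧
    (rL y < rL (Ls w y) ∨ rL y = rL (Ls w y) ∧ ∃ v, y = Ls v (Ls w y)) := by
  induction w with
  | nil => exact ⟨le_rfl, Or.inr ⟨rfl, [], rfl⟩⟩
  | cons b w ih =>
    change lev (L b (Ls w y)) ≤ _ ∧ (_ < rL (L b (Ls w y)) ∨ _ = rL (L b (Ls w y)) ∧
      ∃ v, y = Ls v (L b (Ls w y)))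
    generalize Ls w y = z at ih
    have h1 : lev (L b z) ≤ lev z ∧ (rL z < rL (L b z) ∨ rL z = rL (L b z) ∧ z = L (!b) (L b z)) := by
      cases b <;> rcases z with ⟨m, _ | i, t⟩ | ⟨m, _ | i, t⟩ | ⟨m, _ | i, t⟩ <;> simp [L, rL, lev]
    refine ⟨h1.1.trans ih.1, ?_⟩
    rcases h1.2 with h | ⟨h, e⟩ <;> rcases ih.2 with h' | ⟨h', v, e'⟩
    · omega
    · omega
    · omega
    · exact Or.inr ⟨h'.trans h, v ++ [!b], by
        rw [Ls, List.foldr_append, ← Ls, ← Ls, e']; exact congrArg (Ls v) e⟩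

def rk (r : X → ℕ) : H → ℕ ×ₗ ℕ
  | .w u => toLex (0, u.length)
  | .x y => toLex (1, r y)
  | .o => toLex (2, 0)

theorem result : ∃ (M : Type) (_ : Monoid M),
    ACC (fun x : M => {y | ∃ h, y = h * x}) ∧ ACC (fun x : M => {y | ∃ h, y = x * h}) ∧
    ¬ ACC (fun x : M => {y | ∃ h k, y = h * x * k}) := by
  refine ⟨H, inferInstance, acc (fun a b => ∃ h, a = h * b) (fun _ _ => Iff.rfl)
    (fun a => ⟨1, (one_mul a).symm⟩) ?_ (rk rL) ?_, acc (fun a b => ∃ h, a = b * h)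
    (fun _ _ => Iff.rfl) (fun a => ⟨1, (mul_one a).symm⟩) ?_ (rk rR) ?_, fun h => ?_⟩
  · rintro _ _ c ⟨h, rfl⟩ ⟨k, rfl⟩
    exact ⟨h * k, (mul_assoc _ _ _).symm⟩
  · rintro _ b ⟨h, rfl⟩
    change rk rL b < rk rL (mul h b) ∨ rk rL b = rk rL (mul h b) ∧ ∃ k, b = mul k (mul h b)
    rcases h with u | y | _ <;> rcases b with v | z | _ <;> simp [mul, rk, Prod.Lex.lt_iff]
    · rcases u with _ | ⟨a, u⟩
      · exact Or.inr ⟨rfl, .w [], rfl⟩
      · simp
    · exact (stepL u z).2.imp_right fun ⟨h, v, e⟩ => ⟨h, .w v, congrArg H.x e⟩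
  · rintro _ _ c ⟨h, rfl⟩ ⟨k, rfl⟩
    exact ⟨k * h, mul_assoc _ _ _⟩
  · rintro _ b ⟨h, rfl⟩
    change rk rR b < rk rR (mul b h) ∨ rk rR b = rk rR (mul b h) ∧ ∃ k, b = mul (mul b h) k
    rcases h with u | y | _ <;> rcases b with v | z | _ <;> simp [mul, rk, Prod.Lex.lt_iff]
    · rcases u with _ | ⟨a, u⟩
      · exact Or.inr ⟨rfl, .w [], by simp⟩
      · simp
    · exact (stepR u z).2.imp_right fun ⟨h, v, e⟩ => ⟨h, .w v, congrArg H.x e⟩
  · have up : ∀ n : ℕ, H.x (Z n 0 0) = H.w [true] * H.x (Z (n + 1 : ℕ) 0 0) * H.w [true] := by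
      intro n
      change _ = H.x (Z ((n + 1 : ℕ) - 1) 0 0)
      simp
    obtain ⟨N, hN⟩ := h (fun n => .x (Z n 0 0)) fun n => by
      rintro _ ⟨h, k, rfl⟩
      exact ⟨h * .w [true], .w [true] * k, by rw [up n]; simp only [mul_assoc]⟩
    obtain ⟨a, b, e⟩ := (hN (N + 1) (by omega)).le ⟨1, 1, by rw [one_mul, mul_one]⟩
    change _ = mul (mul a _) b at e
    rcases a with u | y | _ <;> rcases b with v | z | _ <;> simp [mul] at e
    have h1 := (stepR v (Ls u (Z N 0 0))).1.trans (stepL u (Z N 0 0)).1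
    rw [← e] at h1
    simp [lev] at h1

end Pool.Agent.Results.MP_c4d24c_al.Chain
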